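import Mathlib
import Pool.Agent.H117R2.UC.Defs
import Pool.Agent.H117R2.Golden2

set_option autoImplicit false

/-! Task T02 of the union-closed project: the certificate for small spread. -/

namespace Pool.Agent.H747R2.UC

open Real Pool.Agent.H117R2.UC

lemma pol6 {d : ℝ} (h0 : 0 ≤ d) (h1 : d ≤ 217/10000) :
    0 ≤ 2 * (1 - d) * (229 / 2000 + d) *
      ((6 * (6931471 / 10000000) + 1 - 64 * d) + 1 - d / 2 - d ^ 2 / 2)
      + d * (6 * (6931471 / 10000000) + 1 - 64 * d)
      - (2 - d) * (6931472 / 10000000 - d / 2) := by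
  have e0 : 0 ≤ d - 0 := by linarith
  have e1 : 0 ≤ 217/10000 - d := by linarith
  have e : (2 * (1 - d) * (229 / 2000 + d) *
      ((6 * (6931471 / 10000000) + 1 - 64 * d) + 1 - d / 2 - d ^ 2 / 2)
      + d * (6 * (6931471 / 10000000) + 1 - 64 * d)
      - (2 - d) * (6931472 / 10000000 - d / 2)) * (217/10000 - 0) ^ 4 =
      (120448577/5000000000) * (d - 0) ^ 0 * (217/10000 - d) ^ 4 + (8060911389791/50000000000000) * (d - 0) ^ 1 * (217/10000 - d) ^ 3 + (15568764210777/62500000000000) * (d - 0) ^ 2 * (217/10000 - d) ^ 2 + (44885498807297/400000000000000) * (d - 0) ^ 3 * (217/10000 - d) ^ 1 + (1211268895113/5000000000000000) * (d - 0) ^ 4 * (217/10000 - d) ^ 0 := by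
    ring
  have e2 : 0 ≤ (2 * (1 - d) * (229 / 2000 + d) *
      ((6 * (6931471 / 10000000) + 1 - 64 * d) + 1 - d / 2 - d ^ 2 / 2)
      + d * (6 * (6931471 / 10000000) + 1 - 64 * d)
      - (2 - d) * (6931472 / 10000000 - d / 2)) * (217/10000 - 0) ^ 4 := by
    rw [e]; positivity
  exact nonneg_of_mul_nonneg_left e2 (by norm_num)

lemma pol5 {d : ℝ} (h0 : 217/10000 ≤ d) (h1 : d ≤ 1/20) :
    0 ≤ 2 * (1 - d) * (229 / 2000 + d) *
      ((5 * (6931471 / 10000000) + 1 - 32 * d) + 1 - d / 2 - d ^ 2 / 2)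
      + d * (5 * (6931471 / 10000000) + 1 - 32 * d)
      - (2 - d) * (6931472 / 10000000 - d / 2) := by
  have e0 : 0 ≤ d - 217/10000 := by linarith
  have e1 : 0 ≤ 1/20 - d := by linarith
  have e : (2 * (1 - d) * (229 / 2000 + d) *
      ((5 * (6931471 / 10000000) + 1 - 32 * d) + 1 - d / 2 - d ^ 2 / 2)
      + d * (5 * (6931471 / 10000000) + 1 - 32 * d)
      - (2 - d) * (6931472 / 10000000 - d / 2)) * (1/20 - 217/10000) ^ 4 =
      (3016628384453/5000000000000000) * (d - 217/10000) ^ 0 * (1/20 - d) ^ 4 + (236825654746717/2000000000000000) * (d - 217/10000) ^ 1 * (1/20 - d) ^ 3 + (27399082984611/100000000000000) * (d - 217/10000) ^ 2 * (1/20 - d) ^ 2 + (3932232294997/20000000000000) * (d - 217/10000) ^ 3 * (1/20 - d) ^ 1 + (1617237121/40000000000) * (d - 217/10000) ^ 4 * (1/20 - d) ^ 0 := by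
    ring
  have e2 : 0 ≤ (2 * (1 - d) * (229 / 2000 + d) *
      ((5 * (6931471 / 10000000) + 1 - 32 * d) + 1 - d / 2 - d ^ 2 / 2)
      + d * (5 * (6931471 / 10000000) + 1 - 32 * d)
      - (2 - d) * (6931472 / 10000000 - d / 2)) * (1/20 - 217/10000) ^ 4 := by
    rw [e]; positivity
  exact nonneg_of_mul_nonneg_left e2 (by norm_num)

lemma pol4 {d : ℝ} (h0 : 1/20 ≤ d) (h1 : d ≤ 77/1000) :
    0 ≤ 2 * (1 - d) * (229 / 2000 + d) *
      ((4 * (6931471 / 10000000) + 1 - 16 * d) + 1 - d / 2 - d ^ 2 / 2)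
      + d * (4 * (6931471 / 10000000) + 1 - 16 * d)
      - (2 - d) * (6931472 / 10000000 - d / 2) := by
  have e0 : 0 ≤ d - 1/20 := by linarith
  have e1 : 0 ≤ 77/1000 - d := by linarith
  have e : (2 * (1 - d) * (229 / 2000 + d) *
      ((4 * (6931471 / 10000000) + 1 - 16 * d) + 1 - d / 2 - d ^ 2 / 2)
      + d * (4 * (6931471 / 10000000) + 1 - 16 * d)
      - (2 - d) * (6931472 / 10000000 - d / 2)) * (77/1000 - 1/20) ^ 4 =
      (1979261173/25000000000) * (d - 1/20) ^ 0 * (77/1000 - d) ^ 4 + (69911799577/156250000000) * (d - 1/20) ^ 1 * (77/1000 - d) ^ 3 + (4152168240231/5000000000000) * (d - 1/20) ^ 2 * (77/1000 - d) ^ 2 + (254351431279/400000000000) * (d - 1/20) ^ 3 * (77/1000 - d) ^ 1 + (1737105319651/10000000000000) * (d - 1/20) ^ 4 * (77/1000 - d) ^ 0 := by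
    ring
  have e2 : 0 ≤ (2 * (1 - d) * (229 / 2000 + d) *
      ((4 * (6931471 / 10000000) + 1 - 16 * d) + 1 - d / 2 - d ^ 2 / 2)
      + d * (4 * (6931471 / 10000000) + 1 - 16 * d)
      - (2 - d) * (6931472 / 10000000 - d / 2)) * (77/1000 - 1/20) ^ 4 := by
    rw [e]; positivity
  exact nonneg_of_mul_nonneg_left e2 (by norm_num)

lemma hb_nonneg {x : ℝ} (h0 : 0 ≤ x) (h1 : x ≤ 1) : 0 ≤ hb x :=
  add_nonneg (negMulLog_nonneg h0 h1) (negMulLog_nonneg (by linarith) (by linarith))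

lemma hb_mul (x y : ℝ) : hb (x * y) = x * hb y + y * hb x - NN x y := by
  unfold NN MM hb
  rw [negMulLog_mul]
  ring

lemma golden {x : ℝ} (h0 : 0 ≤ x) (h1 : x ≤ 1) : 1618 / 1000 * (x * hb x) ≤ hb (x ^ 2) := by
  rcases h0.eq_or_lt with rfl | h0
  · simp [hb]
  have h := Pool.Agent.H117R2.Gold.ahs h0 h1
  have hq := Pool.Agent.H117R2.Gold.q_lb
  unfold Pool.Agent.H117R2.Gold.g at h
  have e1 : Pool.Agent.H117R2.Gold.h2 x = hb x := rfl
  have e2 : Pool.Agent.H117R2.Gold.h2 (x ^ 2) = hb (x ^ 2) := rfl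
  rw [e1, e2] at h
  have hx2 : 0 < x ^ 2 := by positivity
  rw [le_div_iff₀ hx2] at h
  have e3 : Pool.Agent.H117R2.Gold.q * (hb x / x) * x ^ 2 =
      Pool.Agent.H117R2.Gold.q * (x * hb x) := by
    field_simp
  rw [e3] at h
  have h2 : 0 ≤ x * hb x := mul_nonneg h0.le (hb_nonneg h0.le h1)
  nlinarith

/-- tangent bound for `-log d` -/
lemma neg_log_ge {d : ℝ} (hd : 0 < d) (k : ℕ) :
    k * (6931471 / 10000000) + 1 - 2 ^ k * d ≤ -log d := by
  have h1 := log_le_sub_one_of_pos (by positivity : 0 < 2 ^ k * d)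
  rw [log_mul (by positivity) hd.ne', log_pow] at h1
  have h2 : (6931471 / 10000000 : ℝ) ≤ log 2 := by linarith [log_two_gt_d9]
  have h3 := mul_le_mul_of_nonneg_left h2 (Nat.cast_nonneg (α := ℝ) k)
  linarith

/-- the main inequality near `1` (`d = 1 - x`, `l = - log d`) -/
lemma near {d : ℝ} (h0 : 0 < d) (h1 : d ≤ 77 / 1000) :
    (2 - d) * (6931472 / 10000000 - d / 2) ≤
      2 * (1 - d) * (229 / 2000 + d) * (-log d + 1 - d / 2 - d ^ 2 / 2) + d * -log d := by
  have key : ∀ (l : ℝ), l ≤ -log d →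
      0 ≤ 2 * (1 - d) * (229 / 2000 + d) * (l + 1 - d / 2 - d ^ 2 / 2) + d * l
        - (2 - d) * (6931472 / 10000000 - d / 2) →
      (2 - d) * (6931472 / 10000000 - d / 2) ≤
        2 * (1 - d) * (229 / 2000 + d) * (-log d + 1 - d / 2 - d ^ 2 / 2) + d * -log d := by
    intro l hl h
    have e1 : 0 ≤ 2 * (1 - d) * (229 / 2000 + d) :=
      mul_nonneg (mul_nonneg (by norm_num) (by linarith)) (by linarith)
    have e2 := mul_le_mul_of_nonneg_left
      (by linarith : l + 1 - d / 2 - d ^ 2 / 2 ≤ -log d + 1 - d / 2 - d ^ 2 / 2) e1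
    have e3 := mul_le_mul_of_nonneg_left hl h0.le
    linarith
  rcases le_total d (217 / 10000) with h | h
  · refine key (6 * (6931471 / 10000000) + 1 - 64 * d) ?_ (pol6 h0.le h)
    have := neg_log_ge h0 6
    norm_num at this ⊢
    linarith
  · rcases le_total d (1 / 20) with h2 | h2
    · refine key (5 * (6931471 / 10000000) + 1 - 32 * d) ?_ (pol5 h h2)
      have := neg_log_ge h0 5
      norm_num at this ⊢
      linarith
    · refine key (4 * (6931471 / 10000000) + 1 - 16 * d) ?_ (pol4 h2 h1)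
      have := neg_log_ge h0 4
      norm_num at this ⊢
      linarith

/-- `NN x x ≤ 2 x hb x (2 - b - x)` -/
lemma diag {x : ℝ} (h0 : 0 ≤ x) (h1 : x ≤ 1) :
    NN x x ≤ 2 * (x * (2229 / 2000 - x)) * hb x := by
  rcases le_total x (9233 / 10000) with h | h
  · have hg := golden h0 h1
    have e := hb_mul x x
    rw [← sq] at e
    have h2 : 0 ≤ x * hb x := mul_nonneg h0 (hb_nonneg h0 h1)
    have h3 : 0 ≤ (9233 / 10000 - x) * (x * hb x) := mul_nonneg (by linarith) h2
    nlinarith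
  · rcases h1.eq_or_lt with rfl | h1
    · simp [NN, MM, hb]
    obtain ⟨d, hd⟩ : ∃ d, d = 1 - x := ⟨_, rfl⟩
    have hx : x = 1 - d := by linarith
    have hd0 : 0 < d := by linarith
    have hd1 : d ≤ 767 / 10000 := by linarith
    subst hx
    have e1 : MM (1 - d) = d * -log d := by
      unfold MM
      rw [sub_sub_cancel]
      unfold negMulLog
      ring
    have e2 : MM ((1 - d) * (1 - d)) = d * (2 - d) * (-log d - log (2 - d)) := by
      unfold MM
      have : 1 - (1 - d) * (1 - d) = d * (2 - d) := by ring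
      rw [this]
      unfold negMulLog
      rw [log_mul hd0.ne' (by linarith)]
      ring
    have e3 : NN (1 - d) (1 - d) = d * (-(d * -log d) + (2 - d) * log (2 - d)) := by
      unfold NN
      rw [e1, e2]
      ring
    have h3 : log (2 - d) ≤ 6931472 / 10000000 - d / 2 := by
      have e4 : (2 : ℝ) - d = 2 * (1 - d / 2) := by ring
      rw [e4, log_mul (by norm_num) (by linarith)]
      have h5 := log_le_sub_one_of_pos (by linarith : 0 < 1 - d / 2)
      linarith [log_two_lt_d9]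
    have h4 : d * (-log d + 1 - d / 2 - d ^ 2 / 2) ≤ hb (1 - d) := by
      have e5 : hb (1 - d) = (1 - d) * -log (1 - d) + d * -log d := by
        unfold hb
        rw [sub_sub_cancel]
        unfold negMulLog
        ring
      rw [e5]
      have h6 : d + d ^ 2 / 2 ≤ -log (1 - d) := by
        have h7 := Real.hasSum_pow_div_log_of_abs_lt_one (x := d)
          (by rw [abs_of_pos hd0]; linarith)
        have h8 := sum_le_hasSum (Finset.range 2) (fun i _ => by positivity) h7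
        norm_num [Finset.sum_range_succ] at h8
        linarith
      have h7 := mul_le_mul_of_nonneg_left h6 (by linarith : 0 ≤ 1 - d)
      nlinarith [h7]
    have hn := near hd0 (by linarith)
    rw [e3]
    have h5 : 0 ≤ 2 * ((1 - d) * (2229 / 2000 - (1 - d))) := by
      apply mul_nonneg (by norm_num)
      exact mul_nonneg (by linarith) (by linarith)
    have h6 := mul_le_mul_of_nonneg_left h4 h5
    refine le_trans ?_ h6
    have h7 := mul_le_mul_of_nonneg_left h3 (by linarith : 0 ≤ 2 - d)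
    have h8 : -(d * -log d) + (2 - d) * log (2 - d) ≤
        2 * (1 - d) * (229 / 2000 + d) * (-log d + 1 - d / 2 - d ^ 2 / 2) := by linarith
    have h9 := mul_le_mul_of_nonneg_left h8 hd0.le
    refine h9.trans (le_of_eq ?_)
    ring

/-- T02 -/
theorem TB
    (NN_cs : ∀ {x y : ℝ}, 0 ≤ x → x ≤ 1 → 0 ≤ y → y ≤ 1 → NN x y ^ 2 ≤ NN x x * NN y y)
    (NN_diag_nonneg : ∀ {x : ℝ}, 0 ≤ x → x ≤ 1 → 0 ≤ NN x x)
    {x y : ℝ} (hx0 : 0 ≤ x) (hx1 : x ≤ 1) (hy0 : 0 ≤ y) (hy1 : y ≤ 1) :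
    1771 / 2000 * (x * hb y + y * hb x) ≤
      hb (x * y) + 1 / 4 * (hb x * om y + hb y * om x) := by
  have hcs := NN_cs hx0 hx1 hy0 hy1
  have dx := diag hx0 hx1
  have dy := diag hy0 hy1
  have hhx := hb_nonneg hx0 hx1
  have hhy := hb_nonneg hy0 hy1
  have ax : 0 ≤ x * (2229 / 2000 - x) := mul_nonneg hx0 (by linarith)
  have ay : 0 ≤ y * (2229 / 2000 - y) := mul_nonneg hy0 (by linarith)
  obtain ⟨a, ha⟩ : ∃ a, a = x * (2229 / 2000 - x) := ⟨_, rfl⟩
  obtain ⟨b, hb'⟩ : ∃ b, b = y * (2229 / 2000 - y) := ⟨_, rfl⟩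
  rw [← ha] at dx ax
  rw [← hb'] at dy ay
  have h1 : NN x y ^ 2 ≤ (a * hb y + b * hb x) ^ 2 := by
    have h2 : NN x x * NN y y ≤ (2 * a * hb x) * (2 * b * hb y) :=
      mul_le_mul dx dy (NN_diag_nonneg hy0 hy1) (by positivity)
    nlinarith [sq_nonneg (a * hb y - b * hb x)]
  have h3 : NN x y ≤ a * hb y + b * hb x := by
    have h4 : 0 ≤ a * hb y + b * hb x := by positivity
    exact (abs_le_of_sq_le_sq' h1 h4).2
  rw [hb_mul]
  unfold om
  rw [ha, hb'] at h3
  nlinarith [h3]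

end Pool.Agent.H747R2.UC
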